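import Pool.Agent.W5h68.CP.Main

/-!
# The sign conjecture for schemes built from surfaces

Let `𝒜` be the category of Chow motives over the perfect field `k` with rational coefficients, `T l` its
Tate objects, `h(X)` the motive of `X` and `H_j` a Weil homology theory. To every separated scheme `X` of
finite type over `k` belongs its weight complex with compact support `W(X)` (Gillet and Soulé, Bondarko),
a complex of Chow motives up to homotopy; for smooth proper `X` it is the motive `h(X)` in degree zero.

The sign conjecture `C⁺(X)` says that there is a correspondence `π : h(X) ⟶ h(X)` which is the identity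
on the even and zero on the odd homology (`Sign`). The motives with this property are closed under
direct sums, direct summands and Tate twists. Therefore it makes sense to ask if a complex of motives is
contractible modulo the morphisms which factor through motives which satisfy the sign conjecture
(`Null (Sign H)`); for the motive `h(X)` in degree zero this is `C⁺(X)`.
-/

set_option autoImplicit false

open CategoryTheory Limits MonoidalCategory AlgebraicGeometry Pool.Agent.Y116.UV
  Pool.Agent.W5h68.SP Pool.Agent.W5h68.PJ Pool.Agent.W5h68.BT Pool.Agent.W5h68.CP Pool.Agent.W5h93.WC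

universe v u v' u'

namespace Pool.Agent.Results.MP_56c18a_ag.BuiltFromSurfaces

/-- The sign conjecture for the products of schemes of dimension at most `N`: the weight complexes of
the products of affine schemes of finite type of dimension at most `N` over `k` are contractible modulo
motives with `C⁺`. For `N = 2` this is known: by resolution of singularities of surfaces and the
triangles of closed-open decompositions it follows from `C⁺` for smooth proper surfaces and curves and
their products. -/
def Products {k : Type} [Field k] {𝒜 : Type u} [Category.{v} 𝒜] [Preadditive 𝒜] {𝒢 : Type u'}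
    [Category.{v'} 𝒢] [Preadditive 𝒢] (H : ℤ → 𝒜 ⥤ 𝒢)
    (W : Sch k → HomotopyCategory 𝒜 (ComplexShape.up ℤ)) (N : ℕ) : Prop :=
  ∀ (A : Type) [CommRing A] [Algebra k A], IsProd k N A → Null (Sign H) (W (aff k A)).as

/-- **The sign conjecture for schemes built from surfaces.**

(1) For every `N`: the weight complexes of the products of affine schemes of dimension at most `N` are
contractible modulo motives with `C⁺` if and only if those of all schemes in the class `Built k N` are.

(2) The class `Built k N` contains all closed subschemes `h(f_1, …, f_r) = 0`, `h ∈ S`, of affine spaces,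
where `f_1, …, f_r` are polynomials in disjoint sets of variables given by read-once formulas with
quasi-homogeneous gates in at most `N + 1` variables, and the scheme `S = 0` has dimension at most `N`. It
contains all closed subschemes of projective spaces given by such equations, if `f_1, …, f_r` are
homogeneous, the elements of `S` are homogeneous for the weights `deg f_i`, and the cone `S = 0` has
dimension at most `N + 1`. For example it contains for every closed subscheme `Y ⊆ ℙ^{r-1}` of dimension
at most `N` and forms `f_1, …, f_r` of the same degree in at most `N + 1` variables each, in disjoint sets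
of variables, the closed subscheme `(f_1(x_1) : … : f_r(x_r)) ∈ Y` of the projective space (the union of
the inverse image of `Y` and of the set of the common zeros).

(3) If (1) holds for `N`, then `C⁺(X)` holds for all smooth proper schemes `X` in the class `Built k N`, in
particular for the smooth projective schemes in (2). This is unconditional for `N = 2`. -/
theorem result {k : Type} [Field k] [PerfectField k] {𝒜 : Type u} [Category.{v} 𝒜] [Preadditive 𝒜]
    [HasZeroObject 𝒜] [HasBinaryBiproducts 𝒜] [MonoidalCategory 𝒜] [MonoidalPreadditive 𝒜]
    {𝒢 : Type u'} [Category.{v'} 𝒢] [Preadditive 𝒢] {T : ℤ → 𝒜} {H : ℤ → 𝒜 ⥤ 𝒢}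
    (hH : IsSignHomology T H) {W : Sch k → HomotopyCategory 𝒜 (ComplexShape.up ℤ)}
    (hW : IsWeightComplex T W) (hc : HasCoverings W) {SmoothProper : Sch k → Prop} {h : Sch k → 𝒜}
    (hh : ∀ X, SmoothProper X → Nonempty (W X ≅ cpx (h X))) :
    (∀ N : ℕ, Products H W N ↔ ∀ X : Sch k, Built k N X → Null (Sign H) (W X).as) ∧
    (∀ N : ℕ, ReadOnceSystems k N (Built k N) ∧ ProjectiveSystems k N (Built k N)) ∧
    ∀ N : ℕ, Products H W N → (∀ X : Sch k, SmoothProper X → Built k N X → Sign H (h X)) ∧
      ProjectiveSystems k N fun X => SmoothProper X → Sign H (h X) := by
  have key : ∀ N : ℕ, Products H W N → ∀ X : Sch k, Built k N X → Null (Sign H) (W X).as :=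
    fun N hN X hX => built_null (V := signCls hH) (fun l M hM => sign_twist hH l M hM)
      (sign_unit hH) hW hc hN hX
  have key2 : ∀ N : ℕ, Products H W N → ∀ X : Sch k, SmoothProper X → Built k N X →
      Sign H (h X) := by
    intro N hN X hX hX'
    obtain ⟨e⟩ := hh X hX
    exact (null_cpx (V := signCls hH)).mp ((key N hN X hX').of_iso e)
  refine ⟨fun N => ⟨key N, fun h1 A _ _ hA => ?_⟩, fun N => ⟨readOnce_built N, projective_built N⟩,
    fun N hN => ⟨key2 N hN, fun r σ f w h1 h2 h3 S h4 h5 X i h6 h7 hX =>
      key2 N hN X hX (projective_built N r σ f w h1 h2 h3 S h4 h5 X i h6 h7)⟩⟩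
  have h2 := aff_isProd hA
  have h3 := aff_ft h2
  exact h1 _ (Built.aff h2)

end Pool.Agent.Results.MP_56c18a_ag.BuiltFromSurfaces
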