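import Pool.Agent.W5h77.CP.Bridge

/-!
# The sign conjecture and diagonal quotients

Let `W` be a Weil cohomology theory for smooth proper varieties over a field of any characteristic,
and let the finite group `G` act on `X` and on `Y` by automorphisms which preserve the orientations
(as all automorphisms do for the classical theories). The sign conjecture for the quotient
`(X × Y)/G` by the diagonal action says that some rational cycle acts on `H(X × Y)` as `∑_g g^*` in
the even degrees and as zero in the odd degrees.

* If every irreducible representation of `G` which occurs in `H(X)` also occurs in `H(Y)`, then the
  sign conjecture for `(X × Y)/G` implies the sign conjecture for `X`.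
* If the same irreducible representations occur in `H(X)` and in `H(Y)`, then the sign conjecture
  for `(X × Y)/G` is equivalent to the sign conjecture for `X` and for `Y`.
* For every `n ≥ 2` the sign conjecture for `X` is equivalent to the sign conjecture for the
  quotient `X^n/G` by the diagonal action, for example for `(X × X)/G`.

For an abelian variety or a hyperelliptic curve and `G = {1, -1}`, or for a covering `X → X/G`, the
quotient `X/G` alone says much less: the sign conjecture for `X/G` concerns only the invariants.

Proof. Let `ε` be the parity operator. By the hypothesis `ε ∑_g (g × g)^*` is algebraic on `X × Y`.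
Its partial trace over `Y` (intersection with the diagonal of `Y`) is the operator
`ε ∑_g χ(g) g^*` on `H(X)`, where `χ` is the character of the whole of `H(Y)`: the supertrace of
`ε g^*` is the trace of `g^*`. The operator `∑_g χ(g) g^*` is algebraic (with coefficients in `K`),
and it is injective: the trace of the projector onto the invariants of the tensor product of `H(Y)`
and its kernel `S` is zero, but by Poincaré duality `Hom_G(S, H(Y))` is dual to these invariants.
So `ε` is a combination of algebraic operators with coefficients in `K`, and the descent to the
rational numbers is the one of the starting files (`Pool.Agent.TH133.PW.signStd_of_span`).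
-/

set_option autoImplicit false

open CategoryTheory

universe u v

namespace Pool.Agent.Results.MP_56c18a_ag.DiagonalQuotients

open Pool.Agent.H914 Pool.Agent.H447 Pool.Agent.W5h77.CP

/-- **The sign conjecture and diagonal quotients.** -/
theorem result {k : Type u} [Field k] {𝒱 : VarClass k} {ops : CycleOps 𝒱}
    (W : WeilCohomology.{u, v} ops) {G : Type} [Group G] [Fintype G] {X Y : 𝒱.Obj}
    (a : G →* Aut X) (b : G →* Aut Y) (hb : Orients W b) :
    (Occurs W a b → DiagonalSign W a b → SignStd W X) ∧
    (Orients W a → Occurs W a b → Occurs W b a →
      (DiagonalSign W a b ↔ SignStd W X ∧ SignStd W Y)) ∧
    ∀ n : ℕ, SignStd W Y ↔ PowerSign W b (n + 1) :=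
  final a b hb

end Pool.Agent.Results.MP_56c18a_ag.DiagonalQuotients
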