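import Pool.Agent.W5h93.GR.Sign

/-!
# The sign conjecture and the completed Grothendieck group of motives

Let `W` be a Weil cohomology theory with coefficient field `K` for smooth proper varieties over a
field of any characteristic. Let `X s` and `Y t` be two finite families of varieties and `a s`,
`b t` Tate twists, all at least `w`. Suppose that the classes `∑ [h(X s)(-a s)]` and
`∑ [h(Y t)(-b t)]` in the Grothendieck group of homological motives with coefficients in `K` are
equal modulo the motives `h(Z)(-c)` with `dim Z + c < w`, all of whose weights are smaller than
those of the given motives; for instance suppose that the classes are equal in the completed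
Grothendieck group. Then the sign conjecture for all `X s` is equivalent to the sign conjecture for
all `Y t`.

In the Grothendieck group an arbitrary motive, for which nothing is known, may be added on both
sides: in particular the sign conjecture for `X` follows if the class of `X` is a combination, with
positive and negative coefficients, of the classes of varieties which satisfy it. In characteristic
zero the completed Grothendieck group of varieties maps to the one of motives (Gillet and Soulé,
Guillén and Navarro Aznar, Bittner), so that by motivic integration (Kontsevich, Batyrev, Denef and
Loeser) the sign conjecture is invariant under K-equivalence.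

The proof cancels the common motive (see `Pool.Agent.W5h93.GR.cancel`): there are a bijective matrix
of correspondences `S` from the sum of the `H(X s)(-a s)` to the sum of the `H(Y t)(-b t)` and one
`S'` in the other direction. The parity operators commute with `S`, so the parity operator of the
`X s` is `(S' S)⁻¹ S' ε S`, where `ε` is the one of the `Y t`, and `(S' S)⁻¹` is a polynomial in
`S' S`. The descent from `K` to rational cycles is the one of the starting files
(`Pool.Agent.TH133.PW.signStd_of_span`).
-/

open Pool.Agent.H914 Pool.Agent.H447 Pool.Agent.W5h93.GR

universe u v

namespace Pool.Agent.Results.MP_56c18a_ag.GrothendieckGroup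

/-- **The sign conjecture depends only on the class in the completed Grothendieck group of
homological motives.** -/
theorem result {k : Type u} [Field k] {𝒱 : VarClass k} {ops : CycleOps 𝒱}
    (W : WeilCohomology.{u, v} ops) {m r : ℕ} (X : Fin m → 𝒱.Obj) (a : Fin m → ℤ)
    (Y : Fin r → 𝒱.Obj) (b : Fin r → ℤ) (w : ℤ) (ha : ∀ s, w ≤ a s) (hb : ∀ t, w ≤ b t)
    (h : classOf X a - classOf Y b ∈ relations W w) :
    (∀ s, SignStd W (X s)) ↔ ∀ t, SignStd W (Y t) :=
  signStd_iff ha hb h

end Pool.Agent.Results.MP_56c18a_ag.GrothendieckGroup
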