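import Pool.Agent.W5h93.EX.Sign

/-!
# The sign conjecture and pairs of cubic hypersurfaces `T(x, y, z) = 1`, `T'(x', y', z') = 1`

For two varieties `X` and `Y` and `c ≥ 0` let `η(X, Y)(c)` be the dimension of the space spanned by the
algebraic correspondences of codimension `c` from `X` to `Y`, minus the dimensions of the subspaces of
those which vanish on the odd, and on the even cohomology of `X`. It is `≥ 0`. The Laurent polynomials
`∑ η(X, Y)(c) L^c` are compatible with blow-ups in `X` and in `Y`; so in characteristic zero `η` extends,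
by the theorem of Bittner, to an invariant of pairs of separated schemes of finite type which is
additive in both arguments (hypothesis `IsPairDefect`).

The sign conjecture `C⁺` for all varieties of dimension at most `n` is equivalent to `η = 0` for all
pairs of smooth affine cubic hypersurfaces `T(x, y, z) = 1` and `T'(x', y', z') = 1`, of arbitrary
dimensions, where `T` and `T'` are trilinear forms with a block of at most `n + 2` variables. So `C⁺`
becomes a system of numerical identities for these explicit hypersurfaces.
-/

set_option autoImplicit false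

open CategoryTheory AlgebraicGeometry Pool.Agent.Y116.UV Pool.Agent.W5h93.EV Pool.Agent.W5h93.EX
  Pool.Agent.H914 Pool.Agent.H447

universe v

namespace Pool.Agent.Results.MP_56c18a_ag.PairsOfTrilinearForms

/-- **The sign conjecture and pairs of trilinear forms.** -/
theorem result {k : Type} [Field k] [PerfectField k] {𝒱 : VarClass k} {ops : CycleOps 𝒱}
    (W : WeilCohomology.{0, v} ops) (η : Sch k → Sch k → ℤ → ℤ) (hη : IsPairDefect W η) :
    (∀ n, PairForms η (n + 2) → SignDim W n) ∧
    (∀ n, ModelsIn (schemes 𝒱) n → (SignDim W n ↔ PairForms η (n + 2))) ∧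
    ((∀ F G : Form k, ∀ c, η F.hyp G.hyp c = 0) → ∀ X : 𝒱.Obj, SignStd W X) ∧
    ((∀ n, ModelsIn (schemes 𝒱) n) →
      ((∀ X : 𝒱.Obj, SignStd W X) ↔ ∀ F G : Form k, ∀ c, η F.hyp G.hyp c = 0)) := by
  have hQ := isClass_schemes 𝒱
  have h1 : ∀ n, PairForms η (n + 2) → SignDim W n := fun n h =>
    (signDim_iff hη n).mpr (pair_of_forms hη.biadditive hQ h)
  have h2 : (∀ F G : Form k, ∀ c, η F.hyp G.hyp c = 0) → ∀ X : 𝒱.Obj, SignStd W X := fun h =>
    (sign_all_iff hη).mpr (pair_all_of_forms hη.biadditive hQ h)
  exact ⟨h1, fun n hM => ⟨fun h => forms_of_pair hη.biadditive hQ hM ((signDim_iff hη n).mp h), h1 n⟩,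
    h2, fun hM => ⟨fun h => forms_of_pair_all hη.biadditive hQ hM ((sign_all_iff hη).mp h), h2⟩⟩

end Pool.Agent.Results.MP_56c18a_ag.PairsOfTrilinearForms
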